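import Pool.Agent.H.MP_99db3a_nt.A

namespace Pool.Agent.H.MP_99db3a_nt

open Polynomial

theorem c21 : cyclotomic 21 ℝ =
    1 - X + X ^ 3 - X ^ 4 + X ^ 6 - X ^ 8 + X ^ 9 - X ^ 11 + X ^ 12 := by
  have h := cyclotomic_expand_eq_cyclotomic_mul (p := 7) (n := 3) (by norm_num) (by norm_num) ℝ
  rw [cyclotomic_three] at h
  refine mul_right_cancel₀ (b := X ^ 2 + X + 1) (by rw [← cyclotomic_three]; exact cyclotomic_ne_zero 3 ℝ) ?_
  rw [← h]; simp; ring

theorem c15 : cyclotomic 15 ℝ = 1 - X + X ^ 3 - X ^ 4 + X ^ 5 - X ^ 7 + X ^ 8 := by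
  have h := cyclotomic_expand_eq_cyclotomic_mul (p := 5) (n := 3) (by norm_num) (by norm_num) ℝ
  rw [cyclotomic_three] at h
  refine mul_right_cancel₀ (b := X ^ 2 + X + 1) (by rw [← cyclotomic_three]; exact cyclotomic_ne_zero 3 ℝ) ?_
  rw [← h]; simp; ring

theorem key (n : ℕ) (hn : ¬ 59 ∣ n) (x : ℝ) :
    (cyclotomic (n * 59) ℝ).eval x * (cyclotomic n ℝ).eval x = (cyclotomic n ℝ).eval (x ^ 59) ∧
    (derivative (cyclotomic (n * 59) ℝ)).eval x * (cyclotomic n ℝ).eval x ^ 2 =
      59 * x ^ 58 * (derivative (cyclotomic n ℝ)).eval (x ^ 59) * (cyclotomic n ℝ).eval x -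
        (derivative (cyclotomic n ℝ)).eval x * (cyclotomic n ℝ).eval (x ^ 59) := by
  have h := cyclotomic_expand_eq_cyclotomic_mul (p := 59) (n := n) (by norm_num) hn ℝ
  have h1 := congrArg (eval x) h
  have h2 := congrArg (fun P => eval x (derivative P)) h
  simp only [derivative_expand, derivative_mul, eval_mul, eval_add, expand_eval, eval_pow, eval_X,
    eval_natCast] at h1 h2
  refine ⟨h1.symm, ?_⟩
  rw [h1]; norm_num at h2
  linear_combination (-(cyclotomic n ℝ).eval x) * h2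

theorem ep (y : ℝ) : (cyclotomic 21 ℝ).eval y = p y := by rw [c21]; simp [p]; ring
theorem eq' (y : ℝ) : (derivative (cyclotomic 21 ℝ)).eval y = q y := by
  rw [c21]; simp [q]; ring
theorem p0 (y : ℝ) : 0 < p y := by rw [← ep]; exact cyclotomic_pos (by norm_num) y

noncomputable def g (y : ℝ) : ℝ := y * q y / p y

theorem dg (y : ℝ) : HasDerivAt g (r y / p y ^ 2) y := by
  have h1 := (cyclotomic 21 ℝ).hasDerivAt y
  have h2 := (derivative (cyclotomic 21 ℝ)).hasDerivAt y
  have h := ((hasDerivAt_id' y).mul h2).div h1 (by rw [ep]; exact (p0 y).ne')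
  refine (h.congr_deriv ?_).congr_of_eventuallyEq (Filter.Eventually.of_forall fun y => ?_)
  · rw [ep]; congr 1
    simp only [Pi.mul_apply, ep, eq']
    rw [c21]; simp [p, q, r]; ring
  · simp [g, ep, eq']

noncomputable def L (x : ℝ) : ℝ := 59 * g (x ^ 59) - g x
noncomputable def L' (x : ℝ) : ℝ := 59 * (r (x ^ 59) / p (x ^ 59) ^ 2 * (59 * x ^ 58)) - r x / p x ^ 2

theorem dL (x : ℝ) : HasDerivAt L (L' x) x := by
  have h := (((dg (x ^ 59)).comp x (hasDerivAt_pow 59 x)).const_mul 59).sub (dg x)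
  exact h.congr_deriv (by simp [L'])

theorem QL (x : ℝ) : x * (derivative (cyclotomic (21 * 59) ℝ)).eval x =
    L x * (cyclotomic (21 * 59) ℝ).eval x := by
  obtain ⟨h1, h2⟩ := key 21 (by norm_num) x
  simp only [ep, eq'] at h1 h2
  have a := (p0 x).ne'; have b := (p0 (x ^ 59)).ne'
  rw [eq_div_of_mul_eq a h1, eq_div_of_mul_eq (pow_ne_zero 2 a) h2, L, g, g]
  field_simp

theorem ps (x a b c d : ℝ) (h1 : a ≤ x) (h2 : x ≤ b) (h0 : 0 ≤ a) (h3 : c ≤ a ^ 59)
    (h4 : b ^ 59 ≤ d) : c ≤ x ^ 59 ∧ x ^ 59 ≤ d :=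
  ⟨h3.trans (pow_le_pow_left₀ h0 h1 _), (pow_le_pow_left₀ (h0.trans h1) h2 _).trans h4⟩

theorem ng (x a b c d : ℝ) (h1 : -b ≤ x) (h2 : x ≤ -a) (h0 : 0 ≤ a) (h3 : c ≤ a ^ 59)
    (h4 : b ^ 59 ≤ d) : -d ≤ x ^ 59 ∧ x ^ 59 ≤ -c := by
  have := ps (-x) a b c d (by linarith) (by linarith) h0 h3 h4
  rw [Odd.neg_pow (by decide)] at this
  constructor <;> linarith

def I (j : ℕ) (x : ℝ) : Prop :=
  match j with
  | 0 => 7 / 10 ≤ x ∧ x ≤ 3 / 4
  | 1 => 9944 / 10000 ≤ x ∧ x ≤ 1
  | 2 => -(1 / 2) ≤ x ∧ x ≤ -(45 / 100)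
  | 3 => -(988 / 1000) ≤ x ∧ x ≤ -(98 / 100)
  | _ => -1 ≤ x ∧ x ≤ -(9985 / 10000)

theorem loc (x : ℝ) (h : 59 * x ^ 58 * q (x ^ 59) * p x = q x * p (x ^ 59)) :
    ∃ j < 5, I j x := by
  have P := p0 x; have U := p0 (x ^ 59); have PU := mul_pos P U
  have h' : 59 * (x ^ 59 * q (x ^ 59)) * p x = x * q x * p (x ^ 59) := by linear_combination x * h
  have e58 : 0 ≤ x ^ 58 := Even.pow_nonneg (by decide) x
  have s58 : |x| ≤ 7 / 10 → 0 ≤ x ^ 58 ∧ x ^ 58 ≤ 1 / 10000 := fun hx => by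
    refine ⟨e58, ?_⟩
    rw [← abs_of_nonneg e58, abs_pow]
    exact (pow_le_pow_left₀ (abs_nonneg x) hx _).trans (by norm_num)
  rcases le_or_gt 1 x with h1 | h2
  · have := e1p _ (one_le_pow₀ h1 (n := 59)); have := e2p x h1
    nlinarith
  rcases le_or_gt (9944 / 10000) x with h1 | h2
  · exact ⟨1, by norm_num, h1, h2.le⟩
  rcases le_or_gt (3 / 4) x with h1 | h2
  · obtain ⟨u1, u2⟩ := ps x _ _ 0 (72 / 100) h1 h2.le (by norm_num) (by norm_num) (by norm_num)
    have := a5 x (by linarith) (by linarith); have := a6 (x ^ 59) (by linarith) (by linarith)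
    have := mul_nonneg (mul_nonneg e58 this) P.le
    nlinarith
  rcases le_or_gt (7 / 10) x with h1 | h2
  · exact ⟨0, by norm_num, h1, h2.le⟩
  rcases le_or_gt (-(45 / 100)) x with h1 | h2
  · obtain ⟨v1, v2⟩ := s58 (abs_le.2 ⟨by linarith, h2.le⟩)
    have u : |x ^ 59| ≤ 1 / 100 := by
      rw [abs_pow]
      exact (pow_le_pow_left₀ (abs_nonneg x) (abs_le.2 ⟨by linarith, h2.le⟩) _).trans (by norm_num)
    rw [abs_le] at u
    have k1 := a1 (x ^ 59) (by linarith) (by linarith)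
    have k2 : 0 ≤ -q x - 7 / 100 * p x := by
      rcases le_total x 0 with h0 | h0
      · exact b1 x (by linarith) (by linarith)
      · have := a2 x (by linarith) (by linarith); linarith
    have := mul_nonneg (mul_nonneg v1 k1) P.le
    have := mul_nonneg k2 U.le
    have := mul_le_mul_of_nonneg_right v2 PU.le
    nlinarith
  rcases le_or_gt (-(1 / 2)) x with h1 | h2
  · exact ⟨2, by norm_num, h1, h2.le⟩
  rcases le_or_gt (-(23 / 25)) x with h1 | h2'
  · obtain ⟨u1, u2⟩ := ng x _ _ 0 (45 / 100) h1 h2.le (by norm_num) (by norm_num) (by norm_num)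
    have := b3 x (by linarith) (by linarith); have := b1 (x ^ 59) (by linarith) (by linarith)
    have k : 0 ≤ -q (x ^ 59) := by linarith
    have := mul_nonneg (mul_nonneg e58 k) P.le
    nlinarith
  clear h2; have h2 := h2'.le
  rcases le_or_gt (-(93 / 100)) x with h1 | h2'
  · obtain ⟨u1, u2⟩ := ng x (23 / 25) (93 / 100) (73 / 10000) (139 / 10000) h1 h2 (by norm_num) (by norm_num) (by norm_num)
    have := c0 x (by linarith) (by linarith); have := d0 (x ^ 59) (by linarith) (by linarith)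
    nlinarith
  clear h2; have h2 := h2'.le
  rcases le_or_gt (-(469 / 500)) x with h1 | h2'
  · obtain ⟨u1, u2⟩ := ng x (93 / 100) (469 / 500) (69 / 5000) (23 / 1000) h1 h2 (by norm_num) (by norm_num) (by norm_num)
    have := c1 x (by linarith) (by linarith); have := d1 (x ^ 59) (by linarith) (by linarith)
    nlinarith
  clear h2; have h2 := h2'.le
  rcases le_or_gt (-(189 / 200)) x with h1 | h2'
  · obtain ⟨u1, u2⟩ := ng x (469 / 500) (189 / 200) (229 / 10000) (89 / 2500) h1 h2 (by norm_num) (by norm_num) (by norm_num)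
    have := c2 x (by linarith) (by linarith); have := d2 (x ^ 59) (by linarith) (by linarith)
    nlinarith
  clear h2; have h2 := h2'.le
  rcases le_or_gt (-(477 / 500)) x with h1 | h2'
  · obtain ⟨u1, u2⟩ := ng x (189 / 200) (477 / 500) (71 / 2000) (311 / 5000) h1 h2 (by norm_num) (by norm_num) (by norm_num)
    have := c3 x (by linarith) (by linarith); have := d3 (x ^ 59) (by linarith) (by linarith)
    nlinarith
  clear h2; have h2 := h2'.le
  rcases le_or_gt (-(121 / 125)) x with h1 | h2'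
  · obtain ⟨u1, u2⟩ := ng x (477 / 500) (121 / 125) (621 / 10000) (367 / 2500) h1 h2 (by norm_num) (by norm_num) (by norm_num)
    have := c4 x (by linarith) (by linarith); have := d4 (x ^ 59) (by linarith) (by linarith)
    nlinarith
  clear h2; have h2 := h2'.le
  rcases le_or_gt (-(49 / 50)) x with h1 | h2'
  · obtain ⟨u1, u2⟩ := ng x (121 / 125) (49 / 50) (1467 / 10000) (3037 / 10000) h1 h2 (by norm_num) (by norm_num) (by norm_num)
    have := c5 x (by linarith) (by linarith); have := d5 (x ^ 59) (by linarith) (by linarith)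
    nlinarith
  clear h2; have h2 := h2'.le
  rcases le_or_gt (-(988 / 1000)) x with h1 | h2
  · exact ⟨3, by norm_num, h1, by linarith⟩
  rcases le_or_gt (-(9985 / 10000)) x with h1 | h2
  · obtain ⟨u1, u2⟩ := ng x _ _ (48 / 100) (92 / 100) h1 h2.le (by norm_num) (by norm_num)
      (by norm_num)
    have := b5 x (by linarith) (by linarith); have := b3 (x ^ 59) (by linarith) (by linarith)
    have k : 0 < q (x ^ 59) := by linarith
    have k2 : 0 < x ^ 58 := Even.pow_pos (by decide) (by linarith)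
    have := mul_pos (mul_pos k2 k) P
    nlinarith
  rcases le_or_gt (-1) x with h1 | h2
  · exact ⟨4, by norm_num, h1, h2.le⟩
  · have := e1n (x ^ 59) (by
      have := one_le_pow₀ (show 1 ≤ -x by linarith) (n := 59)
      rw [Odd.neg_pow (by decide)] at this; linarith)
    have := e2n x h2.le
    nlinarith

theorem der (j : ℕ) (x : ℝ) (h : I j x) : x ≠ 0 ∧ L' x ≠ 0 := by
  have P := p0 x; have U := p0 (x ^ 59)
  have P2 : 0 < p x ^ 2 := by positivity
  have U2 : 0 < p (x ^ 59) ^ 2 := by positivity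
  have PU := mul_pos P2 U2
  suffices x ≠ 0 ∧ 3481 * (x ^ 59 * r (x ^ 59)) * p x ^ 2 ≠ x * r x * p (x ^ 59) ^ 2 by
    refine ⟨this.1, fun e => this.2 ?_⟩
    rw [L'] at e; field_simp at e; linear_combination x * e
  rcases j with _ | _ | _ | _ | j <;> obtain ⟨h1, h2⟩ := h <;> refine ⟨by linarith, fun e => ?_⟩
  · obtain ⟨u1, u2⟩ := ps x _ _ 0 (1 / 100) h1 h2 (by norm_num) (by norm_num) (by norm_num)
    have := a4 x (by linarith) (by linarith)
    have := mul_nonneg (mul_nonneg u1 (a3 (x ^ 59) (by linarith) (by linarith))) P2.le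
    have : 0 < x * r x * p (x ^ 59) ^ 2 := mul_pos (mul_pos (by linarith) (by linarith)) U2
    linarith
  · obtain ⟨u1, u2⟩ := ps x _ _ (71 / 100) 1 h1 h2 (by norm_num) (by norm_num) (by norm_num)
    have := mul_nonneg (a7 (x ^ 59) (by linarith) (by linarith)) P2.le
    have := mul_nonneg (a8 x (by linarith) (by linarith)) U2.le
    linarith
  · obtain ⟨u1, u2⟩ := ng x _ _ 0 (1 / 100) h1 h2 (by norm_num) (by norm_num) (by norm_num)
    have := b2 x (by linarith) (by linarith)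
    have k : 0 ≤ -x ^ 59 := by linarith
    have := mul_nonneg (mul_nonneg k (a3 (x ^ 59) (by linarith) (by linarith))) P2.le
    have : 0 < -x * r x * p (x ^ 59) ^ 2 := mul_pos (mul_pos (by linarith) (by linarith)) U2
    linarith
  · obtain ⟨u1, u2⟩ := ng x _ _ (3 / 10) (1 / 2) h1 h2 (by norm_num) (by norm_num) (by norm_num)
    have := b2 (x ^ 59) (by linarith) (by linarith); have := b4 x (by linarith) (by linarith)
    have : 0 < -x ^ 59 * r (x ^ 59) * p x ^ 2 := mul_pos (mul_pos (by linarith) (by linarith)) P2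
    have : 0 < -x * -r x * p (x ^ 59) ^ 2 := mul_pos (mul_pos (by linarith) (by linarith)) U2
    linarith
  · obtain ⟨u1, u2⟩ := ng x _ _ (915 / 1000) 1 h1 h2 (by norm_num) (by norm_num) (by norm_num)
    have := mul_nonneg (b6 (x ^ 59) (by linarith) (by linarith)) P2.le
    have := mul_nonneg (b7 x (by linarith) (by linarith)) U2.le
    linarith

end Pool.Agent.H.MP_99db3a_nt
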